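import Pool.Agent.Helper5.LpG.Lp

/-!
# The algebra of bounded operators on `ℓ^p` is not a Grothendieck space

Let `1 < p < ∞`, `p ≠ 2`. The Banach space of bounded operators on `ℓ^p` is not a Grothendieck
space, for real and for complex scalars.

The proof: let `G = (ℤ/2)^k`, and for an operator `T` on `ℓ^p(G)` let `D_i(T)` be the average over
`g` of the matrix entries `T_{g, g + e_i}`. Then `∑_{i ≤ k} |D_i(T)| ≤ C ‖T‖`, where `C` depends on
`p` only. Indeed, for `p ≠ 2` the numerical range of the flip on the two-dimensional complex space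
`ℓ^p_2` has interior points, so the matrix `(1/2) [1, t; t, 1]` lies in the unit ball of the
projective tensor product of `ℓ^q_2` and `ℓ^p_2` for all complex `t` in a disc; taking tensor
products one gets polynomials in `t` bounded by `‖T‖` on that disc, and Cauchy's estimate bounds
their derivatives at `0`. So `ℓ_1^k` is uniformly complemented in the operators on `ℓ^p(G)`.
-/

namespace Pool.Agent.Results.MP_ce6b34_an.NotGrothendieck

open scoped ENNReal
open Pool.Agent.Helper5.LpG (IsGrothendieck)

theorem result (𝕜 : Type) [RCLike 𝕜] (p : ℝ≥0∞) [Fact (1 ≤ p)] (hp1 : 1 < p) (hp2 : p ≠ 2)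
    (hp3 : p ≠ ∞) :
    ¬ IsGrothendieck 𝕜 (lp (fun _ : ℕ => 𝕜) p →L[𝕜] lp (fun _ : ℕ => 𝕜) p) :=
  Pool.Agent.Helper5.LpG.main hp1 hp2 hp3

end Pool.Agent.Results.MP_ce6b34_an.NotGrothendieck
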